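import Pool.Agent.H.MP_1664c7_al.Main

namespace Pool.Agent.Results.MP_1664c7_al.Q1

universe u

theorem result (F : Type u) [Field F] [CharP F 3] :
    ∃ (A : Type u) (_ : NonUnitalNonAssocRing A) (_ : Module F A) (_ : IsScalarTower F A A)
      (_ : SMulCommClass F A A), (∀ x : A, x * x = 0) ∧ (∀ x y : A, x * y * y * y = 0) ∧
      ∃ a b : A, ∀ N : ℕ, 1 ≤ N →
        ∃ w : FreeMagma (NonUnitalAlgebra.adjoin F ({a, b} : Set A)),
          w.length = N ∧ FreeMagma.lift Subtype.val w ≠ (0 : A) :=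
  Pool.Agent.H.MP_1664c7_al.main F

end Pool.Agent.Results.MP_1664c7_al.Q1
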